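import Pool.Agent.Lib.MP_aa7e4d_lc.Interfaces

/-!
# AMALG

One tuple `a'` which is related to every `b j` (`j ∈ K`) as `a j` is.
-/

open FirstOrder FirstOrder.Language

namespace Pool.Agent.SFC.H99

open Classical

theorem terms_finite {N : Type} (F : Frame N) {α : Type} [Finite α] (d : ℕ) (u : α → N) :
    {z : N | ∃ (x : α) (w : List Fn), w.length ≤ d ∧ z = F.ev w (u x)}.Finite := by
  have h1 : ((Set.univ : Set α) ×ˢ {w : List Fn | w.length ≤ d}).Finite :=
    Set.finite_univ.prod (List.finite_length_le Fn d)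
  refine (h1.image (fun q : α × List Fn => F.ev q.2 (u q.1))).subset ?_
  rintro z ⟨x, w, hw, rfl⟩
  exact ⟨(x, w), ⟨Set.mem_univ _, hw⟩, rfl⟩

theorem amalg (hExt : ExtStatement) : AmalgStatement := by
  intro N F hG α β _ _ d K a b W H1 H2 H3 H4 H5 H6 H7
  by_cases hK : K.Nonempty
  swap
  · rw [Finset.not_nonempty_iff_eq_empty] at hK
    refine ⟨a 0, fun j hj => ?_⟩
    rw [hK] at hj
    exact absurd hj (Finset.notMem_empty j)
  obtain ⟨j0, hj0⟩ := hK
  -- the new elements
  set Xs : Set N := {z | z ∉ W ∧ ∃ (x : α) (w : List Fn), w.length ≤ d ∧ z = F.ev w (a j0 x)}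
    with hXs
  have hXfin : Xs.Finite := (terms_finite F d (a j0)).subset (fun z hz => hz.2)
  haveI : Finite Xs := hXfin.to_subtype
  -- the old elements
  have hBfin : (⋃ j ∈ K, {z : N | ∃ (y : β) (w : List Fn), w.length ≤ d ∧
      z = F.ev w (b j y)}).Finite :=
    Set.Finite.biUnion K.finite_toSet (fun j _ => terms_finite F d (b j))
  have hSfin : ((W : Set N) ∪ ⋃ j ∈ K, {z : N | ∃ (y : β) (w : List Fn), w.length ≤ d ∧
      z = F.ev w (b j y)}).Finite := W.finite_toSet.union hBfin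
  set S : Finset N := hSfin.toFinset with hS
  have hWS : ∀ z ∈ W, z ∈ S := fun z hz => by
    rw [hS, Set.Finite.mem_toFinset]
    exact Or.inl hz
  have hBS : ∀ j ∈ K, ∀ (y : β) (w : List Fn), w.length ≤ d → F.ev w (b j y) ∈ S := by
    intro j hj y w hw
    rw [hS, Set.Finite.mem_toFinset]
    refine Or.inr ?_
    simp only [Set.mem_iUnion, Set.mem_setOf_eq]
    exact ⟨j, hj, y, w, hw, rfl⟩
  let ρ : Xs → ℕ := fun x => {y : N | y ∈ Xs ∧ F.lt y x}.ncard
  let κ : Xs → Kind := fun x => F.kind x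
  let τ : Xs → Fn → Option (Xs ⊕ N) := fun x i =>
    if F.f i x = x then none
    else if h : F.f i x ∈ Xs then some (Sum.inl ⟨F.f i x, h⟩)
    else if F.f i x ∈ W then some (Sum.inr (F.f i x))
    else none
  let Q : Xs → Xs → Prop := fun x y => F.R x y
  let U : Xs → N → Prop := fun x s => ∃ j ∈ K, ∃ (x0 : α) (w : List Fn), w.length ≤ d ∧
    (x : N) = F.ev w (a j0 x0) ∧ F.R (F.ev w (a j x0)) s ∧
    (s ∈ W ∨ ∃ (y : β) (w' : List Fn), w'.length ≤ d ∧ s = F.ev w' (b j y))
  have hτ1 : ∀ x i y, τ x i = some (Sum.inl y) → F.f i x ≠ x ∧ F.f i x = y := by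
    intro x i y h
    simp only [τ] at h
    split_ifs at h with h1 h2 h3
    · refine ⟨h1, ?_⟩
      simp only [Option.some.injEq, Sum.inl.injEq] at h
      rw [← h]
    · simp at h
  have hτ2 : ∀ x i s, τ x i = some (Sum.inr s) → F.f i x ≠ x ∧ F.f i x = s ∧ s ∈ W := by
    intro x i s h
    simp only [τ] at h
    split_ifs at h with h1 h2 h3
    · simp at h
    · simp only [Option.some.injEq, Sum.inr.injEq] at h
      exact ⟨h1, h, h ▸ h3⟩
  obtain ⟨e, he, heS, heK, heN, heX, heY, heQ, heU⟩ := hExt N F hG Xs ρ κ τ S Q U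
    (by
      intro x i y h
      obtain ⟨h1, h2⟩ := hτ1 x i y h
      have hlt := F.f_lt i x h1
      rw [h2] at hlt
      constructor
      · refine Set.ncard_lt_ncard ?_ (hXfin.subset fun z hz => hz.1)
        refine ⟨fun z hz => ⟨hz.1, F.lt_trans _ _ _ hz.2 hlt⟩, fun hsub => ?_⟩
        exact F.lt_irrefl _ (hsub ⟨y.2, hlt⟩).2
      · have := F.f_ok i x h1
        rw [h2] at this
        exact this)
    (by
      intro x i s h
      obtain ⟨h1, h2, h3⟩ := hτ2 x i s h
      have := F.f_ok i x h1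
      rw [h2] at this
      exact ⟨hWS s h3, this⟩)
    (fun x y h => F.R_symm _ _ h) (fun x => F.R_irrefl _)
  -- the map
  let g : N → N := fun z => if h : z ∈ Xs then e ⟨z, h⟩ else z
  have gX : ∀ z (h : z ∈ Xs), g z = e ⟨z, h⟩ := fun z h => dif_pos h
  have gW : ∀ z, z ∈ W → g z = z := fun z hz => dif_neg (fun h => h.1 hz)
  have hterm : ∀ (x : α) (w : List Fn), w.length ≤ d →
      F.ev w (a j0 x) ∈ W ∨ F.ev w (a j0 x) ∈ Xs := by
    intro x w hw
    by_cases h : F.ev w (a j0 x) ∈ W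
    · exact Or.inl h
    · exact Or.inr ⟨h, x, w, hw, rfl⟩
  have hev : ∀ (x : α) (w : List Fn), w.length ≤ d →
      F.ev w (g (a j0 x)) = g (F.ev w (a j0 x)) := by
    intro x w
    induction w with
    | nil => intro _; rfl
    | cons i w ih =>
      intro hw
      have hw' : w.length < d := by simpa using hw
      rw [Frame.ev_cons, ih hw'.le]
      rcases hterm x w hw'.le with hz | hz
      · have h1 := H3 j0 hj0 x w i hw' hz
        rw [gW _ hz, gW _ h1, Frame.ev_cons]
      · rw [Frame.ev_cons]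
        set z := F.ev w (a j0 x) with hzdef
        rw [gX z hz]
        by_cases h1 : F.f i z = z
        · have : τ ⟨z, hz⟩ i = none := if_pos h1
          rw [heN _ _ this, h1, gX z hz]
        · rcases hterm x (i :: w) hw with h2 | h2
          · rw [Frame.ev_cons, ← hzdef] at h2
            have h3 : F.f i z ∉ Xs := fun h => h.1 h2
            have : τ ⟨z, hz⟩ i = some (Sum.inr (F.f i z)) := by
              simp only [τ]
              rw [if_neg h1, dif_neg h3, if_pos h2]
            rw [heY _ _ _ this, gW _ h2]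
          · rw [Frame.ev_cons, ← hzdef] at h2
            have : τ ⟨z, hz⟩ i = some (Sum.inl ⟨F.f i z, h2⟩) := by
              simp only [τ]
              rw [if_neg h1, dif_pos h2]
            rw [heX _ _ _ this, gX _ h2]
  -- g is injective on terms
  have ginj : ∀ z z' : N, (z ∈ W ∨ z ∈ Xs) → (z' ∈ W ∨ z' ∈ Xs) → (g z = g z' ↔ z = z') := by
    intro z z' hz hz'
    refine ⟨fun h => ?_, fun h => by rw [h]⟩
    rcases hz with hz | hz <;> rcases hz' with hz' | hz'
    · rwa [gW _ hz, gW _ hz'] at h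
    · rw [gW _ hz, gX _ hz'] at h
      exact absurd (h ▸ hWS z hz) (heS _)
    · rw [gX _ hz, gW _ hz'] at h
      exact absurd (h ▸ hWS z' hz') (heS _)
    · rw [gX _ hz, gX _ hz'] at h
      exact congrArg Subtype.val (he h)
  have gkind : ∀ z : N, (z ∈ W ∨ z ∈ Xs) → F.kind (g z) = F.kind z := by
    intro z hz
    rcases hz with hz | hz
    · rw [gW _ hz]
    · rw [gX _ hz, heK]
  have gRW : ∀ z s : N, z ∈ Xs → s ∈ W → (F.R (g z) s ↔ F.R z s) := by
    intro z s hz hs
    rw [gX _ hz, heU _ s (hWS s hs)]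
    constructor
    · rintro ⟨j, hj, x0, w, hw, h1, h2, -⟩
      have := (H5 j hj j0 hj0 x0 w hw s hs).1 h2
      rw [show z = F.ev w (a j0 x0) from h1]
      exact this
    · intro h
      obtain ⟨x0, w, hw, h1⟩ := hz.2
      exact ⟨j0, hj0, x0, w, hw, h1, by rw [← h1]; exact h, Or.inl hs⟩
  have gR : ∀ z z' : N, (z ∈ W ∨ z ∈ Xs) → (z' ∈ W ∨ z' ∈ Xs) →
      (F.R (g z) (g z') ↔ F.R z z') := by
    intro z z' hz hz'
    rcases hz with hz | hz <;> rcases hz' with hz' | hz'
    · rw [gW _ hz, gW _ hz']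
    · rw [gW _ hz]
      have := gRW z' z hz' hz
      exact ⟨fun h => F.R_symm _ _ (this.1 (F.R_symm _ _ h)),
        fun h => F.R_symm _ _ (this.2 (F.R_symm _ _ h))⟩
    · rw [gW _ hz']
      exact gRW z z' hz hz'
    · rw [gX _ hz, gX _ hz']
      exact heQ _ _
  -- cross conditions
  have cross1 : ∀ j ∈ K, ∀ (x : α) (y : β) (w w' : List Fn), w.length ≤ d → w'.length ≤ d →
      (F.ev w (a j x) = F.ev w' (b j y) ↔ F.ev w (g (a j0 x)) = F.ev w' (b j y)) := by
    intro j hj x y w w' hw hw'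
    rw [hev x w hw]
    constructor
    · intro h
      have h1 := H2 j hj x y w w' hw hw' h
      have h2 := (H4 j hj j0 hj0 x w hw _ h1).1 rfl
      rw [h2, gW _ h1, h]
    · intro h
      rcases hterm x w hw with hz | hz
      · rw [gW _ hz] at h
        rw [← h]
        exact (H4 j0 hj0 j hj x w hw _ hz).1 rfl
      · rw [gX _ hz] at h
        exact absurd (h ▸ hBS j hj y w' hw') (heS _)
  have cross2 : ∀ j ∈ K, ∀ (x : α) (y : β) (w w' : List Fn), w.length ≤ d → w'.length ≤ d →
      (F.R (F.ev w (a j x)) (F.ev w' (b j y)) ↔ F.R (F.ev w (g (a j0 x))) (F.ev w' (b j y))) := by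
    intro j hj x y w w' hw hw'
    rw [hev x w hw]
    rcases hterm x w hw with hz | hz
    · rw [gW _ hz, (H4 j0 hj0 j hj x w hw _ hz).1 rfl]
    · rw [gX _ hz, heU _ _ (hBS j hj y w' hw')]
      constructor
      · intro h
        exact ⟨j, hj, x, w, hw, rfl, h, Or.inr ⟨y, w', hw', rfl⟩⟩
      · rintro ⟨j1, hj1, x1, w1, hw1, h1, h2, h3⟩
        have h1' : F.ev w (a j0 x) = F.ev w1 (a j0 x1) := h1
        have h4 : F.ev w (a j1 x) = F.ev w1 (a j1 x1) :=
          ((H1 j0 hj0 j1 hj1).1 x x1 w w1 hw hw1).1 h1'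
        rw [← h4] at h2
        rcases h3 with h3 | ⟨y2, w2, hw2, h3⟩
        · exact (H5 j1 hj1 j hj x w hw _ h3).1 h2
        · by_cases hjj : j = j1
          · subst hjj
            exact h2
          · have h5 := H7 j hj j1 hj1 hjj y y2 w' w2 hw' hw2 h3
            rw [← h5] at h2
            exact (H6 j1 hj1 j hj x y w w' hw hw').1 h2
  refine ⟨fun x => g (a j0 x), fun j hj => ⟨?_, ?_, ?_⟩⟩
  · rintro (x | y) (x' | y') w w' hw hw'
    · simp only [Sum.elim_inl]
      rw [(H1 j hj j0 hj0).1 x x' w w' hw hw', hev x w hw, hev x' w' hw',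
        ginj _ _ (hterm x w hw) (hterm x' w' hw')]
    · simp only [Sum.elim_inl, Sum.elim_inr]
      exact cross1 j hj x y' w w' hw hw'
    · simp only [Sum.elim_inl, Sum.elim_inr]
      rw [eq_comm, cross1 j hj x' y w' w hw' hw, eq_comm]
    · simp only [Sum.elim_inr]
  · rintro (x | y) w hw
    · simp only [Sum.elim_inl]
      rw [(H1 j hj j0 hj0).2.1 x w hw, hev x w hw, gkind _ (hterm x w hw)]
    · simp only [Sum.elim_inr]
  · rintro (x | y) (x' | y') w w' hw hw'
    · simp only [Sum.elim_inl]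
      rw [(H1 j hj j0 hj0).2.2 x x' w w' hw hw', hev x w hw, hev x' w' hw',
        gR _ _ (hterm x w hw) (hterm x' w' hw')]
    · simp only [Sum.elim_inl, Sum.elim_inr]
      exact cross2 j hj x y' w w' hw hw'
    · simp only [Sum.elim_inl, Sum.elim_inr]
      have := cross2 j hj x' y w' w hw' hw
      exact ⟨fun h => F.R_symm _ _ (this.1 (F.R_symm _ _ h)),
        fun h => F.R_symm _ _ (this.2 (F.R_symm _ _ h))⟩
    · simp only [Sum.elim_inr]

end Pool.Agent.SFC.H99
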